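import Pool.Agent.Helper73.Dil.Pure

open Topology Set Filter MeasureTheory Metric

namespace Pool.Agent.Helper73.Dil

universe u

/-- CHAIN: local oscillation bounds give global ones on a compact connected space. -/
theorem st_CHAIN : ST_CHAIN.{u} := by
  intro X _ _ _ I f w hw hloc
  choose N hN C hC using hloc
  -- all points are related
  have hrel : ∀ x0 x : X, ∃ D : ℝ, ∀ i, |f i x - f i x0| ≤ D * w i := by
    intro x0
    let S : Set X := {x | ∃ D : ℝ, ∀ i, |f i x - f i x0| ≤ D * w i}
    have hS0 : x0 ∈ S := ⟨0, fun i => by simp⟩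
    have hopen : IsOpen S := by
      rw [isOpen_iff_mem_nhds]
      rintro x ⟨D, hD⟩
      filter_upwards [hN x] with y hy
      refine ⟨C x + D, fun i => ?_⟩
      have h1 := hC x i y hy
      have h2 := hD i
      calc |f i y - f i x0| = |(f i y - f i x) + (f i x - f i x0)| := by ring_nf
        _ ≤ |f i y - f i x| + |f i x - f i x0| := abs_add_le _ _
        _ ≤ (C x + D) * w i := by rw [add_mul]; linarith
    have hclosed : IsClosed S := by
      rw [← isOpen_compl_iff, isOpen_iff_mem_nhds]
      intro x hx
      filter_upwards [hN x] with y hy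
      rintro ⟨D, hD⟩
      apply hx
      refine ⟨C x + D, fun i => ?_⟩
      have h1 := hC x i y hy
      have h2 := hD i
      calc |f i x - f i x0| = |(f i y - f i x0) - (f i y - f i x)| := by ring_nf
        _ ≤ |f i y - f i x0| + |f i y - f i x| := abs_sub _ _
        _ ≤ (C x + D) * w i := by rw [add_mul]; linarith
    have : S = univ := IsClopen.eq_univ ⟨hclosed, hopen⟩ ⟨x0, hS0⟩
    intro x
    have hx : x ∈ S := by rw [this]; exact mem_univ x
    exact hx
  obtain ⟨x0⟩ := (inferInstance : Nonempty X)
  choose D hD using hrel x0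
  obtain ⟨t, -, ht⟩ := isCompact_univ.elim_nhds_subcover N (fun x _ => hN x)
  let B : ℝ := ∑ x ∈ t, (|C x| + |D x|)
  have hB : ∀ x ∈ t, |C x| + |D x| ≤ B := by
    intro x hx
    exact Finset.single_le_sum (f := fun x => |C x| + |D x|)
      (fun i _ => add_nonneg (abs_nonneg _) (abs_nonneg _)) hx
  have hmain : ∀ i y, |f i y - f i x0| ≤ B * w i := by
    intro i y
    have hy := ht (mem_univ y)
    simp only [mem_iUnion] at hy
    obtain ⟨x, hxt, hyx⟩ := hy
    have h1 := hC x i y hyx
    have h2 := hD x i
    calc |f i y - f i x0| = |(f i y - f i x) + (f i x - f i x0)| := by ring_nf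
      _ ≤ |f i y - f i x| + |f i x - f i x0| := abs_add_le _ _
      _ ≤ C x * w i + D x * w i := add_le_add h1 h2
      _ ≤ (|C x| + |D x|) * w i := by
          rw [add_mul]
          exact add_le_add (mul_le_mul_of_nonneg_right (le_abs_self _) (hw i))
            (mul_le_mul_of_nonneg_right (le_abs_self _) (hw i))
      _ ≤ B * w i := mul_le_mul_of_nonneg_right (hB x hxt) (hw i)
  refine ⟨2 * B, fun i x y => ?_⟩
  calc |f i x - f i y| = |(f i x - f i x0) - (f i y - f i x0)| := by ring_nf
    _ ≤ |f i x - f i x0| + |f i y - f i x0| := abs_sub _ _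
    _ ≤ 2 * B * w i := by
        have h1 := hmain i x
        have h2 := hmain i y
        linarith

end Pool.Agent.Helper73.Dil
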