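import Pool.Agent.Helper73.Dil.Pure

open Topology Set Filter MeasureTheory Metric

namespace Pool.Agent.Helper73.Dil

universe u

/-- MAXX: maximum principle on a space. -/
theorem st_MAXX : ST_MAXX.{u} := by
  intro X _ _ _ W f hW hK hne hun hf hloc
  have hcne : (closure W).Nonempty := hne.closure
  obtain ⟨x0, hx0, hmax⟩ := hK.exists_isMaxOn hcne hf
  by_contra hcon
  push Not at hcon
  -- the set where the maximum is attained
  have hS1 : {x | x ∈ closure W ∧ f x0 ≤ f x} ⊆ W := by
    intro x hx
    by_contra hxW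
    have hfr : x ∈ frontier W := by
      rw [frontier, hW.interior_eq]
      exact ⟨hx.1, hxW⟩
    obtain ⟨y, hy, hlt⟩ := hcon x hfr
    have h1 : f y ≤ f x0 := hmax hy
    have h2 := hx.2
    exact absurd hlt (not_lt.mpr (le_trans h1 h2))
  have hclosed : IsClosed {x | x ∈ closure W ∧ f x0 ≤ f x} := by
    have := hf.preimage_isClosed_of_isClosed isClosed_closure (isClosed_Ici (a := f x0))
    exact this
  have hopen : IsOpen {x | x ∈ closure W ∧ f x0 ≤ f x} := by
    rw [isOpen_iff_mem_nhds]
    intro x hx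
    have hxW : x ∈ W := hS1 hx
    have hWn : W ∈ 𝓝 x := hW.mem_nhds hxW
    have hlm : IsLocalMax f x := by
      filter_upwards [hWn] with y hy
      exact le_trans (hmax (subset_closure hy)) hx.2
    filter_upwards [hWn, hloc x hxW hlm] with y hy hy2
    exact ⟨subset_closure hy, by rw [hy2]; exact hx.2⟩
  have hclopen : IsClopen {x | x ∈ closure W ∧ f x0 ≤ f x} := ⟨hclosed, hopen⟩
  rcases isClopen_iff.mp hclopen with h | h
  · have : x0 ∈ ({x | x ∈ closure W ∧ f x0 ≤ f x} : Set X) := ⟨hx0, le_refl _⟩
    rw [h] at this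
    exact this
  · apply hun
    rw [eq_univ_iff_forall]
    intro x
    apply hS1
    rw [h]
    exact mem_univ x

end Pool.Agent.Helper73.Dil
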