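import Pool.Agent.Helper73.Dil.Surf
import Pool.Agent.Helper73.Dil.Rat

open Topology Set Filter MeasureTheory Metric

namespace Pool.Agent.Helper73.Dil

universe u

open DilationSurface

section Abstract

variable {α : Type u} [MeasurableSpace α] {μ : Measure α}

/-- pointwise conjugation on `L²` -/
noncomputable def conjL2 : Conj (Lp ℂ 2 μ) where
  c f := star f
  add f g := by
    apply Lp.ext
    filter_upwards [Lp.coeFn_star (f + g), Lp.coeFn_add f g, Lp.coeFn_star f, Lp.coeFn_star g,
      Lp.coeFn_add (star f) (star g)] with x h1 h2 h3 h4 h5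
    rw [h1, h5, Pi.add_apply, h3, h4, Pi.star_apply, h2, Pi.add_apply, star_add, Pi.star_apply,
      Pi.star_apply]
  smul a f := by
    apply Lp.ext
    filter_upwards [Lp.coeFn_star (a • f), Lp.coeFn_smul a f, Lp.coeFn_star f,
      Lp.coeFn_smul ((starRingEnd ℂ) a) (star f)] with x h1 h2 h3 h4
    rw [h1, h4, Pi.smul_apply, h3, Pi.star_apply, h2, Pi.smul_apply, Pi.star_apply, smul_eq_mul,
      smul_eq_mul, star_mul', starRingEnd_apply]
  invol f := star_star f
  inner f g := by
    rw [L2.inner_def, L2.inner_def]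
    apply integral_congr_ae
    filter_upwards [Lp.coeFn_star f, Lp.coeFn_star g] with x h1 h2
    rw [h1, h2, RCLike.inner_apply, RCLike.inner_apply, Pi.star_apply, Pi.star_apply]
    rw [← starRingEnd_apply, ← starRingEnd_apply, Complex.conj_conj, mul_comm]

theorem conjL2_apply (f : Lp ℂ 2 μ) :
    (conjL2 (μ := μ)).c f =ᵐ[μ] fun x => (starRingEnd ℂ) (f x) := by
  filter_upwards [Lp.coeFn_star f] with x h1
  exact h1

variable {H : Type u} [NormedAddCommGroup H] [InnerProductSpace ℂ H]

theorem Conj.norm_eq (J : Conj H) (f : H) : ‖J.c f‖ = ‖f‖ := by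
  have h := J.inner f f
  rw [inner_self_eq_norm_sq_to_K, inner_self_eq_norm_sq_to_K] at h
  have h2 : ‖J.c f‖ ^ 2 = ‖f‖ ^ 2 := by exact_mod_cast h
  exact (pow_left_inj₀ (norm_nonneg _) (norm_nonneg _) two_ne_zero).mp h2

theorem Conj.continuous (J : Conj H) : Continuous J.c := by
  have hneg : ∀ f, J.c (-f) = - J.c f := by
    intro f
    have := J.smul (-1) f
    simpa using this
  have hlip : LipschitzWith 1 J.c := by
    apply LipschitzWith.of_dist_le_mul
    intro f g
    rw [dist_eq_norm, dist_eq_norm, NNReal.coe_one, one_mul, sub_eq_add_neg, ← hneg, ← J.add,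
      J.norm_eq, ← sub_eq_add_neg]
  exact hlip.continuous

theorem Conj.zero' (J : Conj H) : J.c 0 = 0 := by
  have := J.smul 0 0
  simpa using this

theorem Om_continuous (J : Conj H) :
    Continuous fun p : (H × H) × (H × H) => Om J p.1 p.2 := by
  unfold Om
  have hJ := J.continuous
  fun_prop

/-- the submodule of forms orthogonal to a given one (second slot) -/
noncomputable def omRight (J : Conj H) (a : H × H) : Submodule ℂ (H × H) where
  carrier := {b | Om J a b = 0}
  add_mem' := by
    intro b c hb hc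
    simp only [mem_setOf_eq, Om, Prod.snd_add, Prod.fst_add, inner_add_right] at hb hc ⊢
    linear_combination hb + hc
  zero_mem' := by simp [Om]
  smul_mem' := by
    intro z b hb
    simp only [mem_setOf_eq, Om, Prod.smul_snd, Prod.smul_fst, inner_smul_right] at hb ⊢
    linear_combination z * hb

/-- the submodule of forms orthogonal to a given one (first slot) -/
noncomputable def omLeft (J : Conj H) (b : H × H) : Submodule ℂ (H × H) where
  carrier := {a | Om J a b = 0}
  add_mem' := by
    intro x y hx hy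
    simp only [mem_setOf_eq, Om, Prod.snd_add, Prod.fst_add, J.add, inner_add_left] at hx hy ⊢
    linear_combination hx + hy
  zero_mem' := by simp [Om, J.zero']
  smul_mem' := by
    intro z x hx
    simp only [mem_setOf_eq, Om, Prod.smul_snd, Prod.smul_fst, J.smul, inner_smul_left,
      Complex.conj_conj] at hx ⊢
    linear_combination z * hx

theorem omRight_closed (J : Conj H) (a : H × H) : IsClosed (omRight J a : Set (H × H)) := by
  have h : Continuous fun b : H × H => Om J a b :=
    (Om_continuous J).comp (Continuous.prodMk continuous_const continuous_id)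
  exact isClosed_eq h continuous_const

theorem omLeft_closed (J : Conj H) (b : H × H) : IsClosed (omLeft J b : Set (H × H)) := by
  have h : Continuous fun a : H × H => Om J a b :=
    (Om_continuous J).comp (Continuous.prodMk continuous_id continuous_const)
  exact isClosed_eq h continuous_const

theorem mem_omRight (J : Conj H) (a b : H × H) : b ∈ omRight J a ↔ Om J a b = 0 := Iff.rfl
theorem mem_omLeft (J : Conj H) (a b : H × H) : a ∈ omLeft J b ↔ Om J a b = 0 := Iff.rfl

/-- the submodule of forms whose conjugate is in a given submodule -/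
noncomputable def conjSub (J : Conj H) (E : Submodule ℂ (H × H)) : Submodule ℂ (H × H) where
  carrier := {a | (J.c a.1, J.c a.2) ∈ E}
  add_mem' := by
    intro x y hx hy
    have : (J.c (x + y).1, J.c (x + y).2) = (J.c x.1, J.c x.2) + (J.c y.1, J.c y.2) := by
      ext <;> simp [J.add]
    simp only [mem_setOf_eq] at hx hy ⊢
    rw [this]
    exact E.add_mem hx hy
  zero_mem' := by
    have : (J.c (0 : H × H).1, J.c (0 : H × H).2) = (0 : H × H) := by
      ext <;> simp [J.zero']
    simp only [mem_setOf_eq]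
    rw [this]
    exact E.zero_mem
  smul_mem' := by
    intro z x hx
    have : (J.c (z • x).1, J.c (z • x).2) = (starRingEnd ℂ) z • (J.c x.1, J.c x.2) := by
      ext <;> simp [J.smul]
    simp only [mem_setOf_eq] at hx ⊢
    rw [this]
    exact E.smul_mem _ hx

theorem mem_conjSub (J : Conj H) (E : Submodule ℂ (H × H)) (a : H × H) :
    a ∈ conjSub J E ↔ (J.c a.1, J.c a.2) ∈ E := Iff.rfl

theorem conjSub_closed (J : Conj H) (E : Submodule ℂ (H × H)) (hE : IsClosed (E : Set (H × H))) :
    IsClosed (conjSub J E : Set (H × H)) := by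
  have h : Continuous fun a : H × H => ((J.c a.1, J.c a.2) : H × H) :=
    (J.continuous.comp continuous_fst).prodMk (J.continuous.comp continuous_snd)
  exact hE.preimage h

theorem closure_span_le {s : Set (H × H)} {S : Submodule ℂ (H × H)}
    (hS : IsClosed (S : Set (H × H))) (h : s ⊆ S) :
    (Submodule.span ℂ s).topologicalClosure ≤ S :=
  Submodule.topologicalClosure_minimal _ (Submodule.span_le.mpr h) hS

end Abstract

section Surface

variable {X : Type u} [TopologicalSpace X] {D : DilationSurface X}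

/-- a test function as a twisted function -/
noncomputable def IsTest.twist {ψ : X → ℂ} (hψ : D.IsTest ψ) : D.Twist where
  F := fun _ => ψ
  trans := fun e e' _ _ x _ _ => Eventually.of_forall fun y => by simp
  smooth := hψ.1

/-- the base scale function as a twisted function -/
noncomputable def scaleTwist (S : D.Scale) : D.Twist where
  F := fun e x => (S.u e x : ℂ)
  trans := by
    intro e e' he he' x hx hx'
    obtain ⟨r, hr⟩ := isChart_dil he he' hx hx'
    obtain ⟨a, b, ha, har, hev⟩ := hr
    have hx0 := S.trans e e' he he' x hx hx' r ⟨a, b, ha, har, hev⟩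
    filter_upwards [hev.eventually_nhds, e.open_source.mem_nhds hx, e'.open_source.mem_nhds hx']
      with y hy hye hye'
    have hy0 := S.trans e e' he he' y hye hye' r ⟨a, b, ha, har, hy⟩
    rw [hx0, hy0]
    push_cast
    ring
  smooth := S.smooth

theorem fderiv_conj (f : ℂ → ℂ) (z v : ℂ) :
    fderiv ℝ (fun w => (starRingEnd ℂ) (f w)) z v = (starRingEnd ℂ) (fderiv ℝ f z v) := by
  have h := (Complex.conjCLE).comp_fderiv (f := f) (x := z)
  have h2 : (⇑Complex.conjCLE ∘ f) = fun w => (starRingEnd ℂ) (f w) := by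
    funext w; simp [Complex.conjCLE_apply]
  rw [h2] at h
  rw [h]
  simp [Complex.conjCLE_apply]

theorem isTest_conj {ψ : X → ℂ} (hψ : D.IsTest ψ) : D.IsTest fun x => (starRingEnd ℂ) (ψ x) := by
  refine ⟨fun e he x hx => ?_, fun p hp => ?_⟩
  · have h := hψ.1 e he x hx
    have h2 := (Complex.conjCLE : ℂ →L[ℝ] ℂ).contDiff.contDiffAt.comp (e x) h
      (n := (⊤ : ℕ∞))
    refine h2.congr_of_eventuallyEq (Eventually.of_forall fun y => ?_)
    simp [Complex.conjCLE_apply]
  · filter_upwards [hψ.2 p hp] with y hy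
    rw [hy]

theorem gx_conj (R : D.Ref) (ψ : X → ℂ) (x : X) :
    R.gx (fun _ => fun x => (starRingEnd ℂ) (ψ x)) x = (starRingEnd ℂ) (R.gx (fun _ => ψ) x) := by
  unfold Ref.gx dx
  exact fderiv_conj (ψ ∘ (R.ch x).symm) _ _

theorem gy_conj (R : D.Ref) (ψ : X → ℂ) (x : X) :
    R.gy (fun _ => fun x => (starRingEnd ℂ) (ψ x)) x = (starRingEnd ℂ) (R.gy (fun _ => ψ) x) := by
  unfold Ref.gy dy
  exact fderiv_conj (ψ ∘ (R.ch x).symm) _ _

theorem gx_real (R : D.Ref) (F : OpenPartialHomeomorph X ℂ → X → ℂ)
    (hF : ∀ e x, (starRingEnd ℂ) (F e x) = F e x) (x : X) :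
    (starRingEnd ℂ) (R.gx F x) = R.gx F x := by
  unfold Ref.gx dx
  rw [← fderiv_conj]
  congr 2
  funext w
  exact hF _ _

theorem gy_real (R : D.Ref) (F : OpenPartialHomeomorph X ℂ → X → ℂ)
    (hF : ∀ e x, (starRingEnd ℂ) (F e x) = F e x) (x : X) :
    (starRingEnd ℂ) (R.gy F x) = R.gy F x := by
  unfold Ref.gy dy
  rw [← fderiv_conj]
  congr 2
  funext w
  exact hF _ _

variable [MeasurableSpace X]

theorem Om_eq_integral {μ : Measure X} (a b : Lp ℂ 2 μ × Lp ℂ 2 μ) (f g f' g' : X → ℂ)
    (h1 : a.1 =ᵐ[μ] f) (h2 : a.2 =ᵐ[μ] g) (h3 : b.1 =ᵐ[μ] f') (h4 : b.2 =ᵐ[μ] g') :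
    Om conjL2 a b = ∫ x, (f x * g' x - g x * f' x) ∂μ := by
  unfold Om
  rw [L2.inner_def, L2.inner_def, ← integral_sub (L2.integrable_inner _ _)
    (L2.integrable_inner _ _)]
  apply integral_congr_ae
  filter_upwards [conjL2_apply a.1, conjL2_apply a.2, h1, h2, h3, h4] with x e1 e2 e3 e4 e5 e6
  rw [e1, e2, RCLike.inner_apply, RCLike.inner_apply, Complex.conj_conj, Complex.conj_conj,
    e3, e4, e5, e6]
  ring

end Surface

/-- ABS: assembling the abstract data. -/
theorem sb_ABS (hI : SB_ISO.{u}) (hM : SB_MEM.{u}) : SB_ABS.{u} := by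
  intro X _ _ _ _ _ D R S hv
  obtain ⟨hM1, hM2⟩ := hM X D R
  obtain ⟨hMx, hMy⟩ := hM2 S
  let J : Conj R.H := conjL2
  let v : R.H × R.H := (hMx.toLp, hMy.toLp)
  have hv1 : v.1 =ᵐ[R.mu] R.gx (fun e x => (S.u e x : ℂ)) := hMx.coeFn_toLp
  have hv2 : v.2 =ᵐ[R.mu] R.gy (fun e x => (S.u e x : ℂ)) := hMy.coeFn_toLp
  have hIsV : R.IsV S v := ⟨hv1, hv2⟩
  have hclosed : IsClosed (R.E : Set (R.H × R.H)) := Submodule.isClosed_topologicalClosure _
  -- generators are in `E`
  have hgen : ∀ α : R.H × R.H, ∀ ψ, D.IsTest ψ → α.1 =ᵐ[R.mu] R.gx (fun _ => ψ) →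
      α.2 =ᵐ[R.mu] R.gy (fun _ => ψ) → α ∈ R.E := by
    intro α ψ h1 h2 h3
    exact Submodule.le_topologicalClosure _ (Submodule.subset_span ⟨ψ, h1, h2, h3⟩)
  have hconj : ∀ α ∈ R.E, (J.c α.1, J.c α.2) ∈ R.E := by
    have hle : R.E ≤ conjSub J R.E := by
      apply closure_span_le (conjSub_closed J R.E hclosed)
      rintro α ⟨ψ, h1, h2, h3⟩
      rw [SetLike.mem_coe, mem_conjSub]
      apply hgen _ (fun x => (starRingEnd ℂ) (ψ x)) (isTest_conj h1)
      · filter_upwards [conjL2_apply α.1, h2] with x e1 e2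
        rw [gx_conj, ← e2]
        exact e1
      · filter_upwards [conjL2_apply α.2, h3] with x e1 e2
        rw [gy_conj, ← e2]
        exact e1
    exact fun α hα => hle hα
  have hiso : ∀ α ∈ R.E, ∀ β ∈ R.E, Om J α β = 0 := by
    have hstep : ∀ β ∈ R.E, R.E ≤ omLeft J β := by
      intro β hβ
      apply closure_span_le (omLeft_closed J β)
      rintro α ⟨φ, h1, h2, h3⟩
      rw [SetLike.mem_coe, mem_omLeft]
      have hle : R.E ≤ omRight J α := by
        apply closure_span_le (omRight_closed J α)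
        rintro γ ⟨ψ, g1, g2, g3⟩
        rw [SetLike.mem_coe, mem_omRight]
        have := hI X D R (IsTest.twist h1) ψ g1
        rw [Om_eq_integral α γ _ _ _ _ h2 h3 g2 g3]
        exact this
      exact hle hβ
    exact fun α hα β hβ => hstep β hβ hα
  have hreal : ∀ e x, (starRingEnd ℂ) ((fun e x => (S.u e x : ℂ) :
      OpenPartialHomeomorph X ℂ → X → ℂ) e x) = (fun e x => (S.u e x : ℂ)) e x :=
    fun e x => Complex.conj_ofReal _
  refine ⟨{ J := J, E := R.E, closed := hclosed, conj := hconj, iso := hiso, v := v,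
            vreal := ?_, vclosed := ?_, vnot := hv v hIsV }, rfl, hIsV, conjL2_apply⟩
  · constructor
    · apply Lp.ext
      filter_upwards [conjL2_apply v.1, hv1] with x e1 e2
      have e3 : (J.c v.1 : R.H) x = (starRingEnd ℂ) (v.1 x) := e1
      rw [e3, e2, gx_real R _ hreal]
    · apply Lp.ext
      filter_upwards [conjL2_apply v.2, hv2] with x e1 e2
      have e3 : (J.c v.2 : R.H) x = (starRingEnd ℂ) (v.2 x) := e1
      rw [e3, e2, gy_real R _ hreal]
  · have hle : R.E ≤ omRight J v := by
      apply closure_span_le (omRight_closed J v)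
      rintro γ ⟨ψ, g1, g2, g3⟩
      rw [SetLike.mem_coe, mem_omRight]
      have := hI X D R (scaleTwist S) ψ g1
      rw [Om_eq_integral v γ _ _ _ _ hv1 hv2 g2 g3]
      exact this
    exact fun ε hε => hle hε

end Pool.Agent.Helper73.Dil
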