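import Pool.Agent.Helper73.Dil.Pure

open Topology Set Filter MeasureTheory Metric

namespace Pool.Agent.Helper73.Dil

theorem secondCountable_G36 : SecondCountableTopology G := by
  have : SecondCountableTopology (Matrix (Fin 2) (Fin 2) ℝ) :=
    inferInstanceAs (SecondCountableTopology (Fin 2 → Fin 2 → ℝ))
  exact TopologicalSpace.Subtype.secondCountableTopology _

theorem locallyCompact_G36 : LocallyCompactSpace G := by
  have : LocallyCompactSpace (Matrix (Fin 2) (Fin 2) ℝ) :=
    inferInstanceAs (LocallyCompactSpace (Fin 2 → Fin 2 → ℝ))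
  have hc : IsClosed {A : Matrix (Fin 2) (Fin 2) ℝ | A.det = 1} :=
    isClosed_eq (Continuous.matrix_det continuous_id) continuous_const
  exact hc.isClosedEmbedding_subtypeVal.locallyCompactSpace

/-- UNIMOD: Haar measure on `SL(2,ℝ)` is right invariant. -/
theorem st_UNIMOD (hP : ST_PERF) : ST_UNIMOD := by
  intro μ hμ
  have := secondCountable_G36
  have := locallyCompact_G36
  refine ⟨fun g => ?_⟩
  have hfun : ∀ g : G, Real.log (Measure.modularCharacterFun g : ℝ) = 0 := by
    apply hP
    intro g h
    rw [Measure.modularCharacterFun_map_mul, NNReal.coe_mul, Real.log_mul]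
    · have := Measure.modularCharacterFun_pos g
      exact_mod_cast this.ne'
    · have := Measure.modularCharacterFun_pos h
      exact_mod_cast this.ne'
  have h1 : Measure.modularCharacterFun g = 1 := by
    have hpos : (0 : ℝ) < (Measure.modularCharacterFun g : ℝ) := by
      exact_mod_cast Measure.modularCharacterFun_pos g
    have := Real.eq_one_of_pos_of_log_eq_zero hpos (hfun g)
    exact_mod_cast this
  have h2 := Measure.isMulLeftInvariant_eq_smul (Measure.map (· * g) μ) μ
  rw [← Measure.modularCharacterFun_eq_haarScalarFactor μ g, h1, one_smul] at h2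
  exact h2

end Pool.Agent.Helper73.Dil
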